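import Mathlib
import Pool.Agent.PatDepth.Defs
import Pool.Agent.H344R3.PD.Depth

/-!
# MP_7f399b_lc — the inclusion depth of pattern languages
-/

namespace Pool.Agent.Results.MP_7f399b_lc.InclusionLaw

open Pool.Agent.PatDepth Pool.Agent.H344R3.PD

/-- Let `A` be a finite alphabet with at least two letters.
(1) Two inequalities for every inclusion `L(p) ⊆ L(q)`.
(2) If `L(p) ⊊ L(q)`, the law `2|p| - #var(p) > 2|q| - #var(q)` holds in each of five cases.
(3) If `(|p|-3)(|p|-4) < 2|A|^2`, the inclusion depth of `p` is exactly `2|p| - #var(p) - 1`.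
(4) For every `p` the inclusion depth is at most `(⌈log|p|⌉ + 1)(|p|-1) + 1 - #var(p)`, the
logarithm to the base `|A|`. -/
theorem result (A : Type) [Fintype A] [Nontrivial A] :
    (∀ p q : List (ℕ ⊕ A), p ≠ [] → q ≠ [] → Lang p ⊆ Lang q →
      (q.filterMap Sum.getRight?).length + nvar p ≤ p.length ∧
      ∀ k, p.length = q.length + k → Fintype.card A ^ nvar p ≤
        (nvar q + k - 1).choose k * Fintype.card A ^ (nvar q + k)) ∧
    (∀ p q : List (ℕ ⊕ A), p ≠ [] → q ≠ [] → Lang p ⊂ Lang q →
      ((p.length - 3) * (p.length - 4) < 2 * Fintype.card A ^ 2 ∨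
        nvar q * (nvar q + 1) < 2 * Fintype.card A ^ 2 ∨
        q.length + 4 * nvar q ≤ p.length ∨
        (q.filterMap Sum.getLeft?).length < nvar q + (p.length - q.length) ∨
        (q.filterMap Sum.getLeft?).Nodup) →
      2 * q.length + nvar p < 2 * p.length + nvar q) ∧
    (∀ p : List (ℕ ⊕ A), p ≠ [] → (p.length - 3) * (p.length - 4) < 2 * Fintype.card A ^ 2 →
      IsGreatest {n | HasChain p n} (2 * p.length - nvar p - 1)) ∧
    (∀ p : List (ℕ ⊕ A), p ≠ [] → ∀ n, HasChain p n →
      n + nvar p ≤ (Nat.clog (Fintype.card A) p.length + 1) * (p.length - 1) + 1) := by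
  refine ⟨fun p q _ _ h => ⟨consts_le h, fun k hk => count_le h hk⟩, fun p q _ _ h hc => ?_,
    fun p h0 hp => chain_exact h0 hp, fun p h0 n h => chain_log h0 h⟩
  rcases hc with hc | hc | hc | hc | hc
  · exact law_short (a := 1) (n := p.length) h le_rfl (by rw [pow_one]; exact hc) le_rfl
  · exact law_few h hc
  · exact law_long h hc
  · exact law_consts h (Or.inr hc)
  · refine law_consts h ?_
    rcases Nat.lt_or_ge q.length p.length with h1 | h1
    · right
      have h2 : (q.filterMap Sum.getLeft?).length = nvar q :=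
        (List.toFinset_card_of_nodup hc).symm
      omega
    · left; exact h1

end Pool.Agent.Results.MP_7f399b_lc.InclusionLaw
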